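import Pool.Agent.Lib.H93Q.Defs

/-! # MP_e5893c: kernel checks -/

set_option autoImplicit false

namespace Pool.Agent.Lib.H93Q

open Pool.Agent.H2AF

theorem okG0 : psdOK 13 16384 gT0 lT0 = true := by decide +kernel
theorem okG1 : psdOK 13 16384 gT1 lT1 = true := by decide +kernel
theorem okG2 : psdOK 13 16384 gT2 lT2 = true := by decide +kernel
theorem okG3 : psdOK 13 16384 gT3 lT3 = true := by decide +kernel

/-- level two -/
def kap (s : ℕ) : Int :=
  if s = 0 then -KC else if s = 1 then KK - KC else if s = 2 then KK else if s = 3 then KK else 0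

theorem level2 : ∀ s < 5, nu s 0 1 + nu s 0 2 + (nu s 1 1 + nu s 1 2) = kap s - qq s 0 0 := by
  decide +kernel

theorem level3 : ∀ s < 5, ∀ rv < 3, ∀ rw < 3, ∀ a < 3,
    (mu s rv rw a 0 1 + mu s rv rw a 0 2) + (mu s rv rw a 1 1 + mu s rv rw a 1 2) +
      (mu s rv rw a 2 1 + mu s rv rw a 2 2) =
    (if a = 0 then nu s 0 rv else 0) + (if a = 1 then nu s 1 rw else 0) -
      2 * qq s 0 (1 + 3 * fl rv rw + a) := by
  decide +kernel

theorem mu_zero : ∀ s < 5, ∀ a < 3, ∀ b < 3, ∀ d < 3, mu s 0 0 a b d = 0 := by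
  decide +kernel

theorem mu_four : ∀ rv < 3, ∀ rw < 3, ∀ a < 3, ∀ b < 3, ∀ d < 3, mu 4 rv rw a b d = 0 := by
  decide +kernel

end Pool.Agent.Lib.H93Q
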