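import Pool.Agent.Lib.H93Q.Defs

/-! # MP_e5893c: kernel check of the 42 graphs -/

set_option autoImplicit false

namespace Pool.Agent.Lib.H93Q

theorem repsOK : (repT.all fun t => chk t.1 t.2.1 t.2.2) = true := by decide +kernel

end Pool.Agent.Lib.H93Q
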