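import Pool.Agent.Lib.H93Q.Defs

/-! # MP_e5893c: every arc matrix is a permutation of one of the 42 matrices -/

set_option autoImplicit false

namespace Pool.Agent.Lib.H93Q

/-- opposite arc code -/
def sw (r : ℕ) : ℕ := if r = 1 then 2 else if r = 2 then 1 else 0

/-- matrix from the six codes -/
def m6 (e0 e1 e2 e3 e4 e5 : ℕ) : List (List ℕ) :=
  [[0, e0, e1, e2], [sw e0, 0, e3, e4], [sw e1, sw e3, 0, e5], [sw e2, sw e4, sw e5, 0]]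

/-- permuted matrix -/
def pm (R : List (List ℕ)) (a b c d : ℕ) : List (List ℕ) :=
  [[eN R a a, eN R a b, eN R a c, eN R a d], [eN R b a, eN R b b, eN R b c, eN R b d],
   [eN R c a, eN R c b, eN R c c, eN R c d], [eN R d a, eN R d b, eN R d c, eN R d d]]

/-- the 24 permutations, four for each pair of positions -/
def L24 : List (ℕ × ℕ × ℕ × ℕ) :=
  [(0, 1, 2, 3), (0, 1, 3, 2), (1, 0, 2, 3), (1, 0, 3, 2),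
   (0, 2, 1, 3), (0, 2, 3, 1), (2, 0, 1, 3), (2, 0, 3, 1),
   (0, 3, 1, 2), (0, 3, 2, 1), (3, 0, 1, 2), (3, 0, 2, 1),
   (1, 2, 0, 3), (1, 2, 3, 0), (2, 1, 0, 3), (2, 1, 3, 0),
   (1, 3, 0, 2), (1, 3, 2, 0), (3, 1, 0, 2), (3, 1, 2, 0),
   (2, 3, 0, 1), (2, 3, 1, 0), (3, 2, 0, 1), (3, 2, 1, 0)]

/-- comparison of matrices of codes -/
def eqM : List (List ℕ) → List (List ℕ) → Bool
  | r :: R, s :: S => (r.zip s).all (fun t => Nat.beq t.1 t.2) && (r.length.beq s.length) && eqM R S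
  | [], [] => true
  | _, _ => false

/-- which permutation makes the matrix one of the representatives (27 rows of 27) -/
def pT : List (List ℕ) := [
  [0, 0, 1, 4, 0, 0, 5, 4, 0, 8, 1, 1, 5, 0, 1, 9, 0, 8, 9, 1, 8, 5, 4, 1, 5, 5, 9],
  [12, 2, 2, 6, 0, 0, 6, 4, 0, 0, 0, 3, 0, 0, 0, 0, 0, 0, 4, 4, 4, 4, 4, 4, 7, 4, 4],
  [13, 12, 2, 14, 12, 2, 6, 6, 0, 16, 16, 16, 0, 0, 0, 20, 0, 0, 20, 4, 16, 20, 4, 4, 20, 4, 4],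
  [16, 3, 3, 1, 2, 1, 8, 8, 8, 10, 1, 1, 1, 1, 1, 8, 8, 8, 10, 1, 8, 1, 1, 1, 11, 8, 8],
  [13, 2, 3, 2, 2, 2, 2, 2, 2, 3, 3, 3, 0, 0, 1, 0, 0, 0, 3, 3, 3, 1, 1, 1, 0, 0, 1],
  [17, 2, 16, 2, 2, 2, 21, 2, 2, 16, 16, 16, 2, 2, 2, 22, 0, 0, 23, 16, 16, 0, 0, 3, 23, 0, 0],
  [17, 3, 16, 12, 12, 12, 21, 12, 8, 18, 3, 16, 1, 1, 1, 22, 8, 8, 10, 1, 10, 22, 1, 1, 22, 8, 8],
  [13, 12, 3, 12, 12, 12, 21, 12, 12, 3, 3, 3, 3, 3, 3, 1, 2, 1, 23, 3, 3, 20, 1, 1, 21, 1, 1],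
  [13, 13, 17, 15, 12, 12, 21, 12, 12, 19, 16, 16, 2, 2, 3, 22, 2, 2, 23, 16, 16, 20, 3, 3, 20, 0, 1],
  [20, 5, 9, 7, 6, 9, 7, 5, 9, 11, 5, 10, 5, 5, 9, 9, 5, 9, 11, 5, 9, 5, 5, 9, 5, 5, 9],
  [15, 6, 6, 6, 6, 6, 7, 6, 6, 7, 5, 4, 7, 5, 4, 7, 5, 5, 7, 4, 4, 7, 4, 4, 7, 5, 4],
  [21, 6, 17, 6, 6, 6, 20, 6, 6, 19, 4, 19, 20, 4, 4, 20, 7, 4, 20, 6, 18, 20, 6, 4, 20, 6, 4],
  [19, 10, 10, 11, 8, 9, 11, 8, 8, 10, 10, 10, 11, 8, 9, 11, 8, 8, 11, 10, 10, 11, 9, 9, 11, 8, 9],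
  [13, 13, 17, 15, 13, 13, 21, 15, 12, 19, 17, 17, 20, 0, 1, 23, 0, 8, 23, 16, 19, 21, 4, 1, 21, 5, 9],
  [19, 13, 17, 15, 13, 13, 21, 15, 13, 19, 18, 19, 22, 0, 0, 22, 10, 10, 23, 18, 18, 22, 4, 11, 23, 4, 11],
  [23, 13, 10, 15, 15, 8, 22, 14, 10, 10, 10, 10, 22, 8, 8, 22, 8, 10, 22, 10, 10, 22, 8, 11, 22, 8, 10],
  [15, 13, 17, 15, 15, 14, 21, 14, 14, 19, 17, 17, 20, 1, 1, 20, 7, 8, 23, 17, 19, 20, 6, 6, 21, 7, 6],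
  [21, 13, 17, 15, 15, 13, 21, 15, 14, 19, 17, 19, 20, 13, 17, 22, 20, 10, 23, 18, 19, 20, 6, 22, 20, 20, 22],
  [21, 13, 17, 7, 14, 14, 20, 14, 9, 11, 18, 18, 5, 5, 9, 11, 5, 9, 22, 5, 18, 7, 5, 9, 20, 5, 9],
  [15, 14, 17, 14, 14, 14, 7, 14, 14, 19, 16, 17, 7, 5, 5, 7, 5, 5, 7, 7, 5, 7, 7, 6, 7, 7, 5],
  [15, 13, 17, 15, 14, 14, 21, 14, 14, 19, 16, 16, 20, 7, 4, 20, 7, 5, 23, 6, 18, 20, 6, 6, 20, 7, 6],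
  [19, 13, 18, 15, 13, 12, 11, 9, 11, 18, 18, 18, 11, 9, 9, 11, 10, 11, 11, 18, 18, 11, 9, 9, 11, 9, 11],
  [13, 13, 17, 15, 13, 12, 21, 12, 12, 19, 16, 17, 21, 2, 3, 23, 2, 2, 23, 16, 16, 21, 3, 3, 21, 5, 9],
  [17, 13, 17, 15, 13, 13, 21, 15, 12, 19, 16, 16, 22, 2, 16, 23, 18, 18, 23, 16, 18, 21, 15, 16, 23, 21, 11],
  [19, 13, 17, 15, 12, 12, 21, 14, 10, 19, 18, 18, 22, 8, 11, 22, 10, 10, 23, 18, 18, 22, 9, 11, 22, 10, 11],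
  [13, 13, 17, 15, 12, 12, 21, 14, 12, 19, 17, 17, 20, 12, 3, 23, 12, 19, 23, 16, 19, 21, 14, 14, 21, 7, 23],
  [13, 13, 17, 15, 13, 12, 21, 14, 12, 19, 16, 17, 20, 13, 17, 22, 12, 19, 23, 16, 18, 20, 15, 14, 21, 21, 23]]

/-- which representative (27 rows of 27) -/
def rT : List (List ℕ) := [
  [0, 1, 1, 1, 2, 3, 1, 3, 4, 1, 3, 2, 4, 5, 5, 3, 6, 5, 1, 4, 3, 3, 5, 6, 2, 5, 5],
  [1, 2, 3, 2, 7, 8, 3, 8, 9, 10, 11, 11, 12, 13, 14, 15, 16, 17, 10, 12, 15, 11, 13, 16, 11, 14, 17],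
  [1, 3, 4, 3, 8, 9, 4, 9, 18, 10, 15, 12, 19, 20, 21, 19, 22, 23, 10, 19, 19, 15, 20, 22, 12, 21, 23],
  [1, 3, 2, 10, 11, 11, 10, 15, 12, 2, 8, 7, 12, 14, 13, 11, 16, 13, 3, 9, 8, 15, 17, 16, 11, 17, 14],
  [4, 5, 5, 12, 13, 14, 19, 20, 21, 12, 14, 13, 24, 25, 25, 26, 27, 28, 19, 21, 20, 26, 28, 27, 29, 30, 30],
  [3, 6, 5, 15, 16, 17, 19, 22, 23, 11, 16, 13, 26, 27, 28, 29, 31, 32, 15, 22, 20, 33, 34, 34, 26, 35, 36],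
  [1, 4, 3, 10, 12, 15, 10, 19, 19, 3, 9, 8, 19, 21, 20, 15, 22, 20, 4, 18, 9, 19, 23, 22, 12, 23, 21],
  [3, 5, 6, 11, 13, 16, 15, 20, 22, 15, 17, 16, 26, 28, 27, 33, 34, 34, 19, 23, 22, 29, 32, 31, 26, 36, 35],
  [2, 5, 5, 11, 14, 17, 12, 21, 23, 11, 17, 14, 29, 30, 30, 26, 35, 36, 12, 23, 21, 26, 36, 35, 24, 37, 37],
  [1, 10, 10, 3, 11, 15, 2, 11, 12, 3, 15, 11, 9, 17, 17, 8, 16, 14, 2, 12, 11, 8, 14, 16, 7, 13, 13],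
  [4, 12, 19, 5, 13, 20, 5, 14, 21, 19, 26, 29, 21, 28, 30, 20, 27, 30, 12, 24, 26, 14, 25, 27, 13, 25, 28],
  [3, 15, 19, 6, 16, 22, 5, 17, 23, 15, 33, 26, 22, 34, 35, 20, 34, 36, 11, 26, 29, 16, 27, 31, 13, 28, 32],
  [4, 19, 12, 19, 29, 26, 12, 26, 24, 5, 20, 13, 21, 30, 28, 14, 27, 25, 5, 21, 14, 20, 30, 27, 13, 28, 25],
  [18, 23, 23, 23, 32, 36, 23, 36, 37, 23, 36, 32, 37, 38, 38, 36, 39, 38, 23, 37, 36, 36, 38, 39, 32, 38, 38],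
  [9, 22, 21, 22, 31, 35, 21, 35, 37, 17, 34, 28, 35, 40, 41, 30, 40, 38, 17, 35, 30, 34, 40, 40, 28, 41, 38],
  [3, 19, 15, 15, 26, 33, 11, 29, 26, 6, 22, 16, 22, 35, 34, 16, 31, 27, 5, 23, 17, 20, 36, 34, 13, 32, 28],
  [9, 21, 22, 17, 28, 34, 17, 30, 35, 22, 35, 31, 35, 41, 40, 34, 40, 40, 21, 37, 35, 30, 38, 40, 28, 38, 41],
  [8, 20, 20, 16, 27, 34, 14, 30, 36, 16, 34, 27, 31, 40, 40, 27, 40, 39, 14, 36, 30, 27, 39, 40, 25, 38, 38],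
  [1, 10, 10, 4, 12, 19, 3, 15, 19, 4, 19, 12, 18, 23, 23, 9, 22, 21, 3, 19, 15, 9, 21, 22, 8, 20, 20],
  [3, 11, 15, 5, 13, 20, 6, 16, 22, 19, 29, 26, 23, 32, 36, 22, 31, 35, 15, 26, 33, 17, 28, 34, 16, 27, 34],
  [2, 11, 12, 5, 14, 21, 5, 17, 23, 12, 26, 24, 23, 36, 37, 21, 35, 37, 11, 29, 26, 17, 30, 35, 14, 30, 36],
  [3, 15, 11, 19, 26, 29, 15, 33, 26, 5, 20, 13, 23, 36, 32, 17, 34, 28, 6, 22, 16, 22, 35, 31, 16, 34, 27],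
  [9, 17, 17, 21, 28, 30, 22, 34, 35, 21, 30, 28, 37, 38, 38, 35, 40, 41, 22, 35, 34, 35, 41, 40, 31, 40, 40],
  [8, 16, 14, 20, 27, 30, 20, 34, 36, 14, 27, 25, 36, 39, 38, 30, 40, 38, 16, 31, 27, 34, 40, 40, 27, 40, 39],
  [2, 12, 11, 12, 24, 26, 11, 26, 29, 5, 21, 14, 23, 37, 36, 17, 35, 30, 5, 23, 17, 21, 37, 35, 14, 36, 30],
  [8, 14, 16, 14, 25, 27, 16, 27, 31, 20, 30, 27, 36, 38, 39, 34, 40, 40, 20, 36, 34, 30, 38, 40, 27, 39, 40],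
  [7, 13, 13, 13, 25, 28, 13, 28, 32, 13, 28, 25, 32, 38, 38, 28, 41, 38, 13, 32, 28, 28, 38, 41, 25, 38, 38]]

/-- the permutation for the codes -/
def pO (e0 e1 e2 e3 e4 e5 : ℕ) : ℕ × ℕ × ℕ × ℕ :=
  L24.getD ((pT.getD (9 * e0 + 3 * e1 + e2) []).getD (9 * e3 + 3 * e4 + e5) 0) (0, 1, 2, 3)

/-- the representative for the codes -/
def rO (e0 e1 e2 e3 e4 e5 : ℕ) : List (List ℕ) × List (List Int) × List (List Int) :=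
  repT.getD ((rT.getD (9 * e0 + 3 * e1 + e2) []).getD (9 * e3 + 3 * e4 + e5) 0) ([], [], [])

/-- the check for the codes -/
def okE (e0 e1 e2 e3 e4 e5 : ℕ) : Bool :=
  eqM (rO e0 e1 e2 e3 e4 e5).1
    (pm (m6 e0 e1 e2 e3 e4 e5) (pO e0 e1 e2 e3 e4 e5).1 (pO e0 e1 e2 e3 e4 e5).2.1
      (pO e0 e1 e2 e3 e4 e5).2.2.1 (pO e0 e1 e2 e3 e4 e5).2.2.2)

/-- the check: all matrices are permutations of representatives -/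
def allM : Bool :=
  (List.range 3).all fun e0 => (List.range 3).all fun e1 => (List.range 3).all fun e2 =>
    (List.range 3).all fun e3 => (List.range 3).all fun e4 => (List.range 3).all fun e5 =>
      okE e0 e1 e2 e3 e4 e5

theorem allM_ok : allM = true := by decide +kernel

end Pool.Agent.Lib.H93Q
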