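import Mathlib
import Pool.Agent.Lib.H2AF.PSD
import Pool.Agent.Lib.H93Q.Data
import Pool.Agent.Lib.H93Q.Reps

/-! # MP_e5893c: the functions of the certificate -/

set_option autoImplicit false

namespace Pool.Agent.Lib.H93Q

open Pool.Agent.H2AF

/-- multiplier of level two: type, end (0 or 1), direction (0, 1, 2) -/
def nu (s r d : ℕ) : Int := if d = 0 then 0 else (nuT.getD s []).getD (2 * r + (d - 1)) 0

/-- multiplier of level three -/
def mu (s rv rw a b d : ℕ) : Int :=
  if d = 0 then 0 else (muT.getD (9 * s + 3 * rv + rw) []).getD (6 * a + 2 * b + (d - 1)) 0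

/-- the quadratic forms -/
def gT (s : ℕ) : List (List Int) :=
  if s = 0 then gT0 else if s = 1 then gT1 else if s = 2 then gT2 else if s = 3 then gT3 else []

/-- entries of the quadratic forms -/
def qq (s i j : ℕ) : Int := ent (gT s) i j

/-- flag number -/
def fl (rv rw : ℕ) : ℕ :=
  if rv = 1 then (if rw = 1 then 0 else if rw = 2 then 2 else 4)
  else if rv = 2 then (if rw = 2 then 1 else if rw = 1 then 3 else 4) else 4

/-- type of an ordered pair from the arc code and the two distance bits -/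
def code (r : ℕ) (b b' : Bool) : ℕ :=
  if r = 1 then (cond b' 1 0) else if r = 2 then 4 else cond b (cond b' 3 2) 4

/-- coefficient of `u a * u b` in the form of an ordered quadruple -/
def fm (s r02 r12 r03 r13 r23 a b : ℕ) : Int :=
  (if a = 3 then 0 else if b = 3 then 0 else
    mu s r02 r12 a b (if b = 0 then r03 else if b = 1 then r13 else r23)) -
  (if a = 3 then 0 else if b = 2 then 0 else
    qq s (1 + 3 * fl r02 r12 + a) (1 + 3 * fl r03 r13 + (if b = 3 then 2 else b)))

/-- position of `i` in the ordered quadruple `a0 a1 a2 a3` -/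
def pos (a0 a1 a2 i : ℕ) : ℕ := if i = a0 then 0 else if i = a1 then 1 else if i = a2 then 2 else 3

/-- entry of a matrix of codes -/
def eN (R : List (List ℕ)) (i j : ℕ) : ℕ := (R.getD i []).getD j 0

/-- symmetrised contribution of one ordered quadruple to the coefficient of `u i * u j` -/
def term (R : List (List ℕ)) (s a0 a1 a2 a3 i j : ℕ) : Int :=
  fm s (eN R a0 a2) (eN R a1 a2) (eN R a0 a3) (eN R a1 a3) (eN R a2 a3)
      (pos a0 a1 a2 i) (pos a0 a1 a2 j) +
    fm s (eN R a0 a2) (eN R a1 a2) (eN R a0 a3) (eN R a1 a3) (eN R a2 a3)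
      (pos a0 a1 a2 j) (pos a0 a1 a2 i)

/-- contribution of an unordered pair `i0, j0` (the other two are `k0, l0`) -/
def pairSum (R : List (List ℕ)) (i0 j0 k0 l0 : ℕ) (b b' : Bool) (i j : ℕ) : Int :=
  (term R (code (eN R i0 j0) b b') i0 j0 k0 l0 i j +
    term R (code (eN R i0 j0) b b') i0 j0 l0 k0 i j) +
  (term R (code (eN R j0 i0) b' b) j0 i0 k0 l0 i j +
    term R (code (eN R j0 i0) b' b) j0 i0 l0 k0 i j)

/-- is the bit `b` possible for the distance two relation from `i` to `j`? -/
def al (R : List (List ℕ)) (i j : ℕ) (b : Bool) : Bool :=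
  if eN R i j = 1 then !b
  else if (eN R i 0 = 1 ∧ eN R 0 j = 1) ∨ (eN R i 1 = 1 ∧ eN R 1 j = 1) ∨
    (eN R i 2 = 1 ∧ eN R 2 j = 1) ∨ (eN R i 3 = 1 ∧ eN R 3 j = 1) then b
  else true

/-- a large number -/
def big : Int := 10 ^ 30

/-- value if the bits are possible -/
def cd (R : List (List ℕ)) (i0 j0 k0 l0 i j : ℕ) (b b' : Bool) : Int :=
  cond (al R i0 j0 b && al R j0 i0 b') (pairSum R i0 j0 k0 l0 b b' i j) big

/-- minimum over the bits -/
def mn (R : List (List ℕ)) (i0 j0 k0 l0 i j : ℕ) : Int :=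
  min (min (cd R i0 j0 k0 l0 i j false false) (cd R i0 j0 k0 l0 i j false true))
    (min (cd R i0 j0 k0 l0 i j true false) (cd R i0 j0 k0 l0 i j true true))

/-- lower bound for the coefficient of `u i * u j` -/
def tot (R : List (List ℕ)) (i j : ℕ) : Int :=
  mn R 0 1 2 3 i j + mn R 0 2 1 3 i j + mn R 0 3 1 2 i j + mn R 1 2 0 3 i j + mn R 1 3 0 2 i j +
    mn R 2 3 0 1 i j

/-- the check for one arc matrix -/
def chk (R : List (List ℕ)) (S L : List (List Int)) : Bool :=
  psdOK 4 16384 S L &&
    ((List.range 4).all fun i => (List.range 4).all fun j => decide (ent S i j ≤ tot R i j))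

end Pool.Agent.Lib.H93Q
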