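import Pool.Agent.Lib.H93Q.C1

/-! # MP_e5893c: the summation identity -/

set_option autoImplicit false

namespace Pool.Agent.Lib.H93Q

open Finset Pool.Agent.H2AF

theorem nu_four : ∀ r < 2, ∀ d < 3, nu 4 r d = 0 := by decide +kernel

theorem nu_zero (s r : ℕ) : nu s r 0 = 0 := by simp [nu]

theorem qq_out : ∀ s < 5, ∀ i < 16, ∀ j < 16, (13 ≤ i ∨ 13 ≤ j) → qq s i j = 0 := by
  decide +kernel

theorem qq_sym : ∀ s < 5, ∀ i < 13, qq s i 0 = qq s 0 i := by decide +kernel

theorem qq_four (i j : ℕ) : qq 4 i j = 0 := by simp [qq, gT, ent]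

/-- the selector -/
noncomputable def zc (f : ℕ) (U : ℕ → ℝ) (i : ℕ) : ℝ :=
  if i = 3 * f then U 0 else if i = 3 * f + 1 then U 1 else if i = 3 * f + 2 then U 2 else 0

theorem sel (g : ℕ → ℝ) (h0 : g 12 = 0) (h1 : g 13 = 0) (h2 : g 14 = 0) (f : ℕ) (hf : f ≤ 4)
    (U : ℕ → ℝ) : ∑ i ∈ range 12, g i * zc f U i = ∑ a ∈ range 3, g (3 * f + a) * U a := by
  interval_cases f <;> simp [zc, sum_range_succ, h0, h1, h2]

theorem fl_le (rv rw : ℕ) : fl rv rw ≤ 4 := by
  unfold fl
  split_ifs <;> omega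

theorem sel2 (s : ℕ) (hs : s < 5) (f f' : ℕ) (hf : f ≤ 4) (hf' : f' ≤ 4) (U U' : ℕ → ℝ) :
    ∑ i ∈ range 12, ∑ j ∈ range 12, (qq s (i + 1) (j + 1) : ℝ) * (zc f U i * zc f' U' j) =
      ∑ a ∈ range 3, ∑ b ∈ range 3, (qq s (1 + 3 * f + a) (1 + 3 * f' + b) : ℝ) * (U a * U' b) := by
  have h1 : ∀ i ∈ range 12, ∑ j ∈ range 12, (qq s (i + 1) (j + 1) : ℝ) * (zc f U i * zc f' U' j) =
      (∑ b ∈ range 3, (qq s (i + 1) (3 * f' + b + 1) : ℝ) * U' b) * zc f U i := by
    intro i hi
    rw [mem_range] at hi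
    rw [← sel (fun j => (qq s (i + 1) (j + 1) : ℝ)) (by rw [qq_out s hs _ (by omega) _ (by omega) (by omega)]; simp)
      (by rw [qq_out s hs _ (by omega) _ (by omega) (by omega)]; simp)
      (by rw [qq_out s hs _ (by omega) _ (by omega) (by omega)]; simp) f' hf' U', sum_mul]
    exact sum_congr rfl fun j _ => by ring
  rw [sum_congr rfl h1]
  have h2 : ∀ i, 12 ≤ i → i < 15 →
      ∑ b ∈ range 3, (qq s (i + 1) (3 * f' + b + 1) : ℝ) * U' b = 0 := by
    intro i hi hi2
    refine sum_eq_zero fun b hb => ?_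
    rw [mem_range] at hb
    rw [qq_out s hs _ (by omega) _ (by omega) (by omega)]
    simp
  rw [sel (fun i => ∑ b ∈ range 3, (qq s (i + 1) (3 * f' + b + 1) : ℝ) * U' b)
    (h2 12 (by norm_num) (by norm_num)) (h2 13 (by norm_num) (by norm_num))
    (h2 14 (by norm_num) (by norm_num)) f hf U]
  refine sum_congr rfl fun a _ => ?_
  rw [sum_mul]
  refine sum_congr rfl fun b _ => ?_
  rw [show 3 * f + a + 1 = 1 + 3 * f + a by ring, show 3 * f' + b + 1 = 1 + 3 * f' + b by ring]
  ring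

section

variable {V : Type} [Fintype V] (A : V → V → Prop)

open Classical in
/-- arc code -/
noncomputable def rel (v w : V) : ℕ := if A v w then 1 else if A w v then 2 else 0

open Classical in
/-- distance two bit -/
noncomputable def Db (v w : V) : Bool := decide (¬ A v w ∧ ∃ u, A v u ∧ A u w)

/-- type of an ordered pair -/
noncomputable def st (v w : V) : ℕ := code (rel A v w) (Db A v w) (Db A w v)

open Classical in
/-- degree -/
noncomputable def dg (v : V) : ℝ := ∑ w, if A v w then 1 else 0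

/-- inverse degree -/
noncomputable def uu (v : V) : ℝ := (dg A v)⁻¹

/-- the three points -/
def pt (v w x : V) (b : ℕ) : V := if b = 0 then v else if b = 1 then w else x

/-- the form on ordered quadruples -/
noncomputable def FF (v w x y : V) : ℝ :=
  ∑ a ∈ range 3, ∑ b ∈ range 3,
    (mu (st A v w) (rel A v x) (rel A w x) a b (rel A (pt v w x b) y) : ℝ) *
      (uu A (pt v w x a) * uu A (pt v w x b)) -
  ∑ a ∈ range 3, ∑ b ∈ range 3,
    (qq (st A v w) (1 + 3 * fl (rel A v x) (rel A w x) + a)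
      (1 + 3 * fl (rel A v y) (rel A w y) + b) : ℝ) *
      (uu A (pt v w x a) * uu A (pt v w y b))

theorem rel_lt (v w : V) : rel A v w < 3 := by
  unfold rel
  split_ifs <;> norm_num

theorem st_lt (v w : V) : st A v w < 5 := by
  unfold st code
  cases Db A v w <;> cases Db A w v <;> simp <;> split_ifs <;> norm_num

theorem uu_nonneg (v : V) : 0 ≤ uu A v := by
  unfold uu dg
  refine inv_nonneg.2 (sum_nonneg fun _ _ => ?_)
  split_ifs <;> norm_num

variable {A}

theorem dg_pos {v w : V} (h : A v w) : 0 < dg A v := by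
  classical
  unfold dg
  have h1 : (if A v w then (1 : ℝ) else 0) ≤ ∑ w, if A v w then (1 : ℝ) else 0 :=
    single_le_sum (f := fun w => if A v w then (1 : ℝ) else 0)
      (fun _ _ => by split_ifs <;> norm_num) (mem_univ w)
  rw [if_pos h] at h1
  have h2 : (0 : ℝ) < ∑ w, if A v w then (1 : ℝ) else 0 := by linarith
  exact h2.trans_eq (sum_congr rfl fun w _ => by split_ifs <;> rfl)

end

end Pool.Agent.Lib.H93Q
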