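import Pool.Agent.Lib.H93Q.Ident

/-! # MP_e5893c: the sum of the form over the last two points -/

set_option autoImplicit false

namespace Pool.Agent.Lib.H93Q

open Finset Pool.Agent.H2AF

section

variable {V : Type} [Fintype V] {A : V → V → Prop}

theorem sum_rel (ha : ∀ u v, A u v → ¬ A v u)
    (he : ∀ v, dg A v = dg (fun a b => A b a) v) (c : ℕ → ℝ) (h0 : c 0 = 0) (v : V) :
    ∑ y, c (rel A v y) = (c 1 + c 2) * dg A v := by
  classical
  have h1 : ∀ y, c (rel A v y) =
      c 1 * (if A v y then 1 else 0) + c 2 * (if A y v then 1 else 0) := by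
    intro y
    unfold rel
    by_cases hvy : A v y
    · simp [hvy, ha v y hvy]
    · by_cases hyv : A y v
      · simp [hvy, hyv]
      · simp [hvy, hyv, h0]
  rw [sum_congr rfl fun y _ => h1 y, sum_add_distrib, ← mul_sum, ← mul_sum]
  have h2 : ∑ y, (if A v y then (1 : ℝ) else 0) = dg A v := by
    unfold dg
    exact sum_congr rfl fun y _ => by split_ifs <;> rfl
  have h3 : ∑ y, (if A y v then (1 : ℝ) else 0) = dg A v := by
    rw [he v]
    unfold dg
    exact sum_congr rfl fun y _ => by split_ifs <;> rfl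
  rw [h2, h3]
  ring

theorem dg_pos' (he : ∀ v, dg A v = dg (fun a b => A b a) v) {v w : V} (h : A w v) :
    0 < dg A v := by
  rw [he v]
  exact dg_pos (A := fun a b => A b a) h

theorem pos_of_rel (he : ∀ v, dg A v = dg (fun a b => A b a) v) {v x : V} (h : rel A v x ≠ 0) :
    0 < dg A v ∧ 0 < dg A x := by
  unfold rel at h
  split_ifs at h with h1 h2
  · exact ⟨dg_pos h1, dg_pos' he h1⟩
  · exact ⟨dg_pos' he h2, dg_pos h2⟩
  · exact absurd rfl h

theorem pos_of_Db (he : ∀ v, dg A v = dg (fun a b => A b a) v) {v w : V} (h : Db A v w = true) :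
    0 < dg A v ∧ 0 < dg A w := by
  simp only [Db, decide_eq_true_eq] at h
  obtain ⟨_, u, h1, h2⟩ := h
  exact ⟨dg_pos h1, dg_pos' he h2⟩

theorem pos_of_st (he : ∀ v, dg A v = dg (fun a b => A b a) v) {v w : V} (h : st A v w ≠ 4) :
    0 < dg A v ∧ 0 < dg A w := by
  by_cases h1 : rel A v w = 0
  · have h2 : Db A v w = true := by
      by_contra h3
      apply h
      unfold st code
      rw [h1]
      simp at h3
      simp [h3]
    exact pos_of_Db he h2
  · exact pos_of_rel he h1

theorem uu_dg {v : V} (h : 0 < dg A v) : uu A v * dg A v = 1 := by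
  unfold uu
  exact inv_mul_cancel₀ h.ne'

theorem mu_d0 (s rv rw a b : ℕ) : mu s rv rw a b 0 = 0 := by simp [mu]

theorem sum_mu (ha : ∀ u v, A u v → ¬ A v u) (he : ∀ v, dg A v = dg (fun a b => A b a) v)
    (v w x : V) (a b : ℕ) (ha3 : a < 3) (hb3 : b < 3) :
    ∑ y, (mu (st A v w) (rel A v x) (rel A w x) a b (rel A (pt v w x b) y) : ℝ) *
      (uu A (pt v w x a) * uu A (pt v w x b)) =
    ((mu (st A v w) (rel A v x) (rel A w x) a b 1 : ℝ) +
      (mu (st A v w) (rel A v x) (rel A w x) a b 2 : ℝ)) * uu A (pt v w x a) := by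
  rw [← sum_mul, sum_rel ha he
    (fun d => (mu (st A v w) (rel A v x) (rel A w x) a b d : ℝ)) (by simp [mu_d0])]
  by_cases hz : st A v w ≠ 4 ∧ (rel A v x ≠ 0 ∨ rel A w x ≠ 0)
  · obtain ⟨hs, hx⟩ := hz
    have hvw := pos_of_st he hs
    have hxp : 0 < dg A x := by
      rcases hx with h | h
      · exact (pos_of_rel he h).2
      · exact (pos_of_rel he h).2
    have hp : 0 < dg A (pt v w x b) := by
      unfold pt
      split_ifs
      · exact hvw.1
      · exact hvw.2
      · exact hxp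
    have h1 := uu_dg hp
    calc _ = ((mu (st A v w) (rel A v x) (rel A w x) a b 1 : ℝ) +
        (mu (st A v w) (rel A v x) (rel A w x) a b 2 : ℝ)) * uu A (pt v w x a) *
          (uu A (pt v w x b) * dg A (pt v w x b)) := by ring
      _ = _ := by rw [h1, mul_one]
  · have h0 : ∀ d < 3, mu (st A v w) (rel A v x) (rel A w x) a b d = 0 := by
      intro d hd
      by_cases h4 : st A v w = 4
      · rw [h4]
        exact mu_four _ (rel_lt A v x) _ (rel_lt A w x) a ha3 b hb3 d hd
      · have h5 : rel A v x = 0 ∧ rel A w x = 0 := by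
          by_contra h6
          apply hz
          refine ⟨h4, ?_⟩
          by_contra h7
          push Not at h7
          exact h6 h7
        rw [h5.1, h5.2]
        exact mu_zero _ (st_lt A v w) a ha3 b hb3 d hd
    rw [h0 1 (by norm_num), h0 2 (by norm_num)]
    simp

/-- level three to level four -/
theorem lift3 (ha : ∀ u v, A u v → ¬ A v u) (he : ∀ v, dg A v = dg (fun a b => A b a) v)
    (v w x : V) :
    ∑ y, ∑ a ∈ range 3, ∑ b ∈ range 3,
      (mu (st A v w) (rel A v x) (rel A w x) a b (rel A (pt v w x b) y) : ℝ) *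
        (uu A (pt v w x a) * uu A (pt v w x b)) =
    (nu (st A v w) 0 (rel A v x) : ℝ) * uu A v + (nu (st A v w) 1 (rel A w x) : ℝ) * uu A w -
      2 * ∑ a ∈ range 3, (qq (st A v w) 0 (1 + 3 * fl (rel A v x) (rel A w x) + a) : ℝ) *
        uu A (pt v w x a) := by
  rw [sum_comm]
  have h1 : ∀ a ∈ range 3, ∑ y, ∑ b ∈ range 3,
      (mu (st A v w) (rel A v x) (rel A w x) a b (rel A (pt v w x b) y) : ℝ) *
        (uu A (pt v w x a) * uu A (pt v w x b)) =
      (((if a = 0 then nu (st A v w) 0 (rel A v x) else 0) +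
        (if a = 1 then nu (st A v w) 1 (rel A w x) else 0) -
        2 * qq (st A v w) 0 (1 + 3 * fl (rel A v x) (rel A w x) + a) : ℤ) : ℝ) *
        uu A (pt v w x a) := by
    intro a ha3
    rw [mem_range] at ha3
    rw [sum_comm, sum_congr rfl fun b hb => sum_mu ha he v w x a b ha3 (mem_range.1 hb)]
    rw [← level3 _ (st_lt A v w) _ (rel_lt A v x) _ (rel_lt A w x) a ha3]
    simp only [sum_range_succ, sum_range_zero, zero_add]
    push_cast
    ring
  rw [sum_congr rfl h1]
  simp only [sum_range_succ, sum_range_zero, zero_add, pt]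
  push_cast
  simp
  ring

theorem sum_nu (ha : ∀ u v, A u v → ¬ A v u) (he : ∀ v, dg A v = dg (fun a b => A b a) v)
    (v w : V) :
    ∑ x, ((nu (st A v w) 0 (rel A v x) : ℝ) * uu A v + (nu (st A v w) 1 (rel A w x) : ℝ) * uu A w) =
      ((kap (st A v w) - qq (st A v w) 0 0 : ℤ) : ℝ) := by
  rw [← level2 _ (st_lt A v w), sum_add_distrib, ← sum_mul, ← sum_mul,
    sum_rel ha he (fun d => (nu (st A v w) 0 d : ℝ)) (by simp [nu_zero]),
    sum_rel ha he (fun d => (nu (st A v w) 1 d : ℝ)) (by simp [nu_zero])]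
  by_cases h4 : st A v w = 4
  · rw [h4, nu_four 0 (by norm_num) 1 (by norm_num), nu_four 0 (by norm_num) 2 (by norm_num),
      nu_four 1 (by norm_num) 1 (by norm_num), nu_four 1 (by norm_num) 2 (by norm_num)]
    simp
  · have h1 := pos_of_st he h4
    have h2 := uu_dg h1.1
    have h3 := uu_dg h1.2
    push_cast
    calc _ = ((nu (st A v w) 0 1 : ℝ) + (nu (st A v w) 0 2 : ℝ)) * (uu A v * dg A v) +
        ((nu (st A v w) 1 1 : ℝ) + (nu (st A v w) 1 2 : ℝ)) * (uu A w * dg A w) := by ring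
      _ = _ := by rw [h2, h3]; ring

/-- the vector of the quadratic form -/
noncomputable def zz (A : V → V → Prop) (v w : V) (i : ℕ) : ℝ :=
  if i = 0 then 1 else
    ∑ x, zc (fl (rel A v x) (rel A w x)) (fun a => uu A (pt v w x a)) (i - 1)

theorem quad_eq (v w : V) :
    ∑ i ∈ range 13, ∑ j ∈ range 13, (qq (st A v w) i j : ℝ) * (zz A v w i * zz A v w j) =
      (qq (st A v w) 0 0 : ℝ) +
      2 * ∑ x, ∑ a ∈ range 3, (qq (st A v w) 0 (1 + 3 * fl (rel A v x) (rel A w x) + a) : ℝ) *
        uu A (pt v w x a) +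
      ∑ x, ∑ y, ∑ a ∈ range 3, ∑ b ∈ range 3,
        (qq (st A v w) (1 + 3 * fl (rel A v x) (rel A w x) + a)
          (1 + 3 * fl (rel A v y) (rel A w y) + b) : ℝ) *
          (uu A (pt v w x a) * uu A (pt v w y b)) := by
  set s := st A v w with hs
  have hs5 : s < 5 := st_lt A v w
  have hz : ∀ i, zz A v w (i + 1) =
      ∑ x, zc (fl (rel A v x) (rel A w x)) (fun a => uu A (pt v w x a)) i := by
    intro i
    simp [zz]
  have h0 : zz A v w 0 = 1 := by simp [zz]
  -- the linear part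
  have hlin : ∑ i ∈ range 12, (qq s 0 (i + 1) : ℝ) * zz A v w (i + 1) =
      ∑ x, ∑ a ∈ range 3, (qq s 0 (1 + 3 * fl (rel A v x) (rel A w x) + a) : ℝ) *
        uu A (pt v w x a) := by
    simp only [hz, mul_sum]
    rw [sum_comm]
    refine sum_congr rfl fun x _ => ?_
    have h1 := sel (fun i => (qq s 0 (i + 1) : ℝ))
      (by rw [qq_out s hs5 _ (by omega) _ (by omega) (by omega)]; simp)
      (by rw [qq_out s hs5 _ (by omega) _ (by omega) (by omega)]; simp)
      (by rw [qq_out s hs5 _ (by omega) _ (by omega) (by omega)]; simp)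
      (fl (rel A v x) (rel A w x)) (fl_le _ _) (fun a => uu A (pt v w x a))
    rw [h1]
    refine sum_congr rfl fun a _ => ?_
    rw [show 3 * fl (rel A v x) (rel A w x) + a + 1 = 1 + 3 * fl (rel A v x) (rel A w x) + a by ring]
  -- the quadratic part
  have hquad : ∑ i ∈ range 12, ∑ j ∈ range 12, (qq s (i + 1) (j + 1) : ℝ) *
      (zz A v w (i + 1) * zz A v w (j + 1)) =
      ∑ x, ∑ y, ∑ a ∈ range 3, ∑ b ∈ range 3,
        (qq s (1 + 3 * fl (rel A v x) (rel A w x) + a)
          (1 + 3 * fl (rel A v y) (rel A w y) + b) : ℝ) *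
          (uu A (pt v w x a) * uu A (pt v w y b)) := by
    have h1 : ∀ i ∈ range 12, ∀ j ∈ range 12, (qq s (i + 1) (j + 1) : ℝ) *
        (zz A v w (i + 1) * zz A v w (j + 1)) =
        ∑ x, ∑ y, (qq s (i + 1) (j + 1) : ℝ) *
          (zc (fl (rel A v x) (rel A w x)) (fun a => uu A (pt v w x a)) i *
            zc (fl (rel A v y) (rel A w y)) (fun a => uu A (pt v w y a)) j) := by
      intro i _ j _
      rw [hz, hz, sum_mul_sum, mul_sum]
      refine sum_congr rfl fun x _ => ?_
      rw [mul_sum]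
    rw [sum_congr rfl fun i hi => sum_congr rfl fun j hj => h1 i hi j hj]
    have h2 : ∀ i ∈ range 12, ∑ j ∈ range 12, ∑ x, ∑ y, (qq s (i + 1) (j + 1) : ℝ) *
          (zc (fl (rel A v x) (rel A w x)) (fun a => uu A (pt v w x a)) i *
            zc (fl (rel A v y) (rel A w y)) (fun a => uu A (pt v w y a)) j) =
        ∑ x, ∑ y, ∑ j ∈ range 12, (qq s (i + 1) (j + 1) : ℝ) *
          (zc (fl (rel A v x) (rel A w x)) (fun a => uu A (pt v w x a)) i *
            zc (fl (rel A v y) (rel A w y)) (fun a => uu A (pt v w y a)) j) := by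
      intro i _
      rw [sum_comm]
      exact sum_congr rfl fun x _ => sum_comm
    rw [sum_congr rfl h2, sum_comm]
    refine sum_congr rfl fun x _ => ?_
    rw [sum_comm]
    refine sum_congr rfl fun y _ => ?_
    exact sel2 s hs5 _ _ (fl_le _ _) (fl_le _ _) _ _
  have h3 : ∑ i ∈ range 13, ∑ j ∈ range 13, (qq s i j : ℝ) * (zz A v w i * zz A v w j) =
      ∑ i ∈ range 12, ∑ j ∈ range 12, (qq s (i + 1) (j + 1) : ℝ) *
        (zz A v w (i + 1) * zz A v w (j + 1)) +
      ∑ i ∈ range 12, (qq s (i + 1) 0 : ℝ) * zz A v w (i + 1) +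
      (∑ j ∈ range 12, (qq s 0 (j + 1) : ℝ) * zz A v w (j + 1) + (qq s 0 0 : ℝ)) := by
    rw [sum_range_succ' _ 12]
    simp only [sum_range_succ' _ 12, h0, mul_one, one_mul, sum_add_distrib]
  have h4 : ∑ i ∈ range 12, (qq s (i + 1) 0 : ℝ) * zz A v w (i + 1) =
      ∑ i ∈ range 12, (qq s 0 (i + 1) : ℝ) * zz A v w (i + 1) := by
    refine sum_congr rfl fun i hi => ?_
    rw [mem_range] at hi
    rw [qq_sym s hs5 (i + 1) (by omega)]
  rw [h3, h4, hlin, hquad]
  ring

theorem quad_nonneg (v w : V) :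
    0 ≤ ∑ i ∈ range 13, ∑ j ∈ range 13, (qq (st A v w) i j : ℝ) * (zz A v w i * zz A v w j) := by
  have key : ∀ (G L : List (List Int)), psdOK 13 16384 G L = true → ∀ z : ℕ → ℝ,
      0 ≤ ∑ i ∈ range 13, ∑ j ∈ range 13, (ent G i j : ℝ) * (z i * z j) := by
    intro G L h z
    refine psd_sum h (fun i j => z i * z j) (fun i j => mul_comm _ _) fun c => ?_
    have h1 : ∑ i ∈ range 13, ∑ j ∈ range 13, c i * c j * (z i * z j) =
        (∑ i ∈ range 13, c i * z i) ^ 2 := by
      rw [sq, sum_mul_sum]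
      exact sum_congr rfl fun i _ => sum_congr rfl fun j _ => by ring
    rw [h1]
    exact sq_nonneg _
  have h5 := st_lt A v w
  interval_cases h : st A v w
  · exact key gT0 lT0 okG0 _
  · exact key gT1 lT1 okG1 _
  · exact key gT2 lT2 okG2 _
  · exact key gT3 lT3 okG3 _
  · simp [qq_four]

/-- the sum of the form over the last two points -/
theorem sum_FF (ha : ∀ u v, A u v → ¬ A v u) (he : ∀ v, dg A v = dg (fun a b => A b a) v)
    (v w : V) : ∑ x, ∑ y, FF A v w x y ≤ (kap (st A v w) : ℝ) := by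
  have h1 : ∑ x, ∑ y, FF A v w x y = (kap (st A v w) : ℝ) -
      ∑ i ∈ range 13, ∑ j ∈ range 13, (qq (st A v w) i j : ℝ) * (zz A v w i * zz A v w j) := by
    rw [quad_eq]
    unfold FF
    simp only [sum_sub_distrib]
    rw [sum_congr rfl fun x _ => lift3 ha he v w x]
    rw [sum_sub_distrib, sum_nu ha he v w, ← mul_sum]
    push_cast
    ring
  rw [h1]
  have := quad_nonneg (A := A) v w
  linarith

end

end Pool.Agent.Lib.H93Q
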