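import Pool.Agent.Lib.H93Q.Point
import Pool.Agent.Lib.H93Q.Ident2

/-! # MP_e5893c: the theorem -/

set_option autoImplicit false

namespace Pool.Agent.Lib.H93Q

open Finset Pool.Agent.H2AF

theorem zip_eq (r s : List ℕ) (h : (r.zip s).all (fun t => Nat.beq t.1 t.2) = true)
    (hl : r.length = s.length) : r = s := by
  induction r generalizing s with
  | nil => cases s with
    | nil => rfl
    | cons _ _ => simp at hl
  | cons a r ih =>
    cases s with
    | nil => simp at hl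
    | cons b s =>
      rw [List.zip_cons_cons, List.all_cons, Bool.and_eq_true] at h
      have h1 : a = b := Nat.eq_of_beq_eq_true h.1
      rw [h1, ih s h.2 (by simpa using hl)]

theorem eqM_eq (R S : List (List ℕ)) (h : eqM R S = true) : R = S := by
  induction R generalizing S with
  | nil => cases S with
    | nil => rfl
    | cons _ _ => simp [eqM] at h
  | cons r R ih =>
    cases S with
    | nil => simp [eqM] at h
    | cons s S =>
      rw [eqM, Bool.and_eq_true, Bool.and_eq_true] at h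
      rw [zip_eq r s h.1.1 (Nat.eq_of_beq_eq_true h.1.2), ih S h.2]

theorem okE_all {e0 e1 e2 e3 e4 e5 : ℕ} (h0 : e0 < 3) (h1 : e1 < 3) (h2 : e2 < 3) (h3 : e3 < 3)
    (h4 : e4 < 3) (h5 : e5 < 3) : okE e0 e1 e2 e3 e4 e5 = true := by
  have h := allM_ok
  unfold allM at h
  have a0 := List.all_eq_true.mp h e0 (List.mem_range.mpr h0)
  have a1 := List.all_eq_true.mp a0 e1 (List.mem_range.mpr h1)
  have a2 := List.all_eq_true.mp a1 e2 (List.mem_range.mpr h2)
  have a3 := List.all_eq_true.mp a2 e3 (List.mem_range.mpr h3)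
  have a4 := List.all_eq_true.mp a3 e4 (List.mem_range.mpr h4)
  exact List.all_eq_true.mp a4 e5 (List.mem_range.mpr h5)

theorem pO_mem (e0 e1 e2 e3 e4 e5 : ℕ) : pO e0 e1 e2 e3 e4 e5 ∈ L24 := by
  unfold pO
  generalize (pT.getD (9 * e0 + 3 * e1 + e2) []).getD (9 * e3 + 3 * e4 + e5) 0 = n
  by_cases hn : n < L24.length
  · rw [List.getD_eq_getElem _ _ hn]
    exact List.getElem_mem hn
  · rw [List.getD_eq_default _ _ (not_lt.1 hn)]
    simp [L24]

theorem rO_mem (e0 e1 e2 e3 e4 e5 : ℕ) :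
    rO e0 e1 e2 e3 e4 e5 ∈ repT ∨ rO e0 e1 e2 e3 e4 e5 = ([], [], []) := by
  unfold rO
  generalize (rT.getD (9 * e0 + 3 * e1 + e2) []).getD (9 * e3 + 3 * e4 + e5) 0 = n
  by_cases hn : n < repT.length
  · left
    rw [List.getD_eq_getElem _ _ hn]
    exact List.getElem_mem hn
  · right
    exact List.getD_eq_default _ _ (not_lt.1 hn)

theorem eN_pm (R : List (List ℕ)) (t : ℕ → ℕ) (i j : ℕ) (hi : i < 4) (hj : j < 4) :
    eN (pm R (t 0) (t 1) (t 2) (t 3)) i j = eN R (t i) (t j) := by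
  interval_cases i <;> interval_cases j <;> rfl

section

variable {V : Type} [Fintype V] {A : V → V → Prop}

theorem rel_self (ha : ∀ u v, A u v → ¬ A v u) (v : V) : rel A v v = 0 := by
  have h : ¬ A v v := fun h => ha v v h h
  simp [rel, h]

theorem rel_swap (ha : ∀ u v, A u v → ¬ A v u) (v w : V) : rel A w v = sw (rel A v w) := by
  by_cases h1 : A v w
  · simp [rel, sw, h1, ha v w h1]
  · by_cases h2 : A w v
    · simp [rel, sw, h1, h2]
    · simp [rel, sw, h1, h2]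

theorem eN_m6 (ha : ∀ u v, A u v → ¬ A v u) (p : Fin 4 → V) (i j : ℕ) (hi : i < 4) (hj : j < 4) :
    eN (m6 (rel A (p 0) (p 1)) (rel A (p 0) (p 2)) (rel A (p 0) (p 3)) (rel A (p 1) (p 2))
      (rel A (p 1) (p 3)) (rel A (p 2) (p 3))) i j = rel A (PP p i) (PP p j) := by
  interval_cases i <;> interval_cases j <;>
    simp [eN, m6, PP, rel_self ha, ← rel_swap ha]

theorem exists_chk (ha : ∀ u v, A u v → ¬ A v u) (p : Fin 4 → V) :
    ∃ (σ : Equiv.Perm (Fin 4)) (R : List (List ℕ)) (S L : List (List Int)),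
      (∀ i < 4, ∀ j < 4, eN R i j = rel A (PP (p ∘ σ) i) (PP (p ∘ σ) j)) ∧ chk R S L = true := by
  have h1 := okE_all (rel_lt A (p 0) (p 1)) (rel_lt A (p 0) (p 2)) (rel_lt A (p 0) (p 3))
    (rel_lt A (p 1) (p 2)) (rel_lt A (p 1) (p 3)) (rel_lt A (p 2) (p 3))
  unfold okE at h1
  obtain ⟨σ, hσ⟩ := exists_perm (pO_mem (rel A (p 0) (p 1)) (rel A (p 0) (p 2)) (rel A (p 0) (p 3))
    (rel A (p 1) (p 2)) (rel A (p 1) (p 3)) (rel A (p 2) (p 3)))
  rw [← hσ] at h1
  have h2 := eqM_eq _ _ h1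
  set T := rO (rel A (p 0) (p 1)) (rel A (p 0) (p 2)) (rel A (p 0) (p 3))
    (rel A (p 1) (p 2)) (rel A (p 1) (p 3)) (rel A (p 2) (p 3)) with hT
  refine ⟨σ, T.1, T.2.1, T.2.2, ?_, ?_⟩
  · intro i hi j hj
    have h3 : ∀ k < 4, PP (p ∘ σ) k = PP p ((fun n : ℕ => if n = 0 then (σ 0 : ℕ) else if n = 1 then
        (σ 1 : ℕ) else if n = 2 then (σ 2 : ℕ) else (σ 3 : ℕ)) k) := by
      intro k hk
      interval_cases k <;> simp [PP_val] <;> simp [PP]
    rw [h2]
    have h4 := eN_pm (m6 (rel A (p 0) (p 1)) (rel A (p 0) (p 2)) (rel A (p 0) (p 3))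
      (rel A (p 1) (p 2)) (rel A (p 1) (p 3)) (rel A (p 2) (p 3)))
      (fun n : ℕ => if n = 0 then (σ 0 : ℕ) else if n = 1 then
        (σ 1 : ℕ) else if n = 2 then (σ 2 : ℕ) else (σ 3 : ℕ)) i j hi hj
    simp only [if_true] at h4
    norm_num at h4
    rw [h3 i hi, h3 j hj, ← eN_m6 ha p _ _ ?_ ?_]
    · exact h4
    · simp only
      split_ifs <;> exact Fin.isLt _
    · simp only
      split_ifs <;> exact Fin.isLt _
  · rcases rO_mem (rel A (p 0) (p 1)) (rel A (p 0) (p 2)) (rel A (p 0) (p 3))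
      (rel A (p 1) (p 2)) (rel A (p 1) (p 3)) (rel A (p 2) (p 3)) with hm | hm
    · exact List.all_eq_true.mp repsOK T hm
    · exfalso
      rw [hT, hm] at h2
      simp [pm] at h2

theorem sum_Fp_nonneg (ha : ∀ u v, A u v → ¬ A v u) : 0 ≤ ∑ p : Fin 4 → V, Fp A p := by
  classical
  have h1 : ∀ σ : Equiv.Perm (Fin 4), ∑ p : Fin 4 → V, Fp A (p ∘ σ) = ∑ p : Fin 4 → V, Fp A p := by
    intro σ
    exact Equiv.sum_comp (Equiv.arrowCongr σ.symm (Equiv.refl V)) (fun p => Fp A p)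
  have h2 : ∀ p : Fin 4 → V, 0 ≤ ∑ σ : Equiv.Perm (Fin 4), Fp A (p ∘ σ) := by
    intro p
    obtain ⟨τ, R, S, L, hR, hc⟩ := exists_chk ha p
    have h3 := sum_nonneg_of_chk (p ∘ τ) R S L hR hc
    have h4 : ∑ σ : Equiv.Perm (Fin 4), Fp A ((p ∘ τ) ∘ σ) =
        ∑ σ : Equiv.Perm (Fin 4), Fp A (p ∘ σ) :=
      Equiv.sum_comp (Equiv.mulLeft τ) (fun σ : Equiv.Perm (Fin 4) => Fp A (p ∘ σ))
    rwa [h4] at h3
  have h3 : 0 ≤ ∑ p : Fin 4 → V, ∑ σ : Equiv.Perm (Fin 4), Fp A (p ∘ σ) :=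
    sum_nonneg fun p _ => h2 p
  rw [sum_comm, sum_congr rfl fun σ _ => h1 σ, sum_const] at h3
  simp only [nsmul_eq_mul] at h3
  have h4 : (0 : ℝ) < ((univ : Finset (Equiv.Perm (Fin 4))).card : ℝ) := by
    rw [Finset.card_univ]
    exact_mod_cast Fintype.card_pos
  exact nonneg_of_mul_nonneg_right h3 h4

theorem code_one {b b' : Bool} : code 1 b b' = cond b' 1 0 := by simp [code]

theorem sum_fun4 (f : V → V → V → V → ℝ) :
    ∑ p : Fin 4 → V, f (p 0) (p 1) (p 2) (p 3) = ∑ v, ∑ w, ∑ x, ∑ y, f v w x y := by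
  classical
  let e : (Fin 4 → V) ≃ V × V × V × V :=
    { toFun := fun p => (p 0, p 1, p 2, p 3)
      invFun := fun t => ![t.1, t.2.1, t.2.2.1, t.2.2.2]
      left_inv := by
        intro p
        ext i
        fin_cases i <;> rfl
      right_inv := by
        rintro ⟨a, b, c, d⟩
        rfl }
  rw [← Equiv.sum_comp e.symm]
  simp only [Fintype.sum_prod_type]
  rfl

open Classical in
/-- the level two functional -/
theorem kap_st (ha : ∀ u v, A u v → ¬ A v u) (v w : V) :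
    (kap (st A v w) : ℝ) = -(KC : ℝ) * (if A v w then 1 else 0) +
      (KK : ℝ) * ((if A v w ∧ Db A w v = true then 1 else 0) +
        (if ¬ A v w ∧ ¬ A w v ∧ Db A v w = true then 1 else 0)) := by
  classical
  by_cases h1 : A v w
  · have h2 : rel A v w = 1 := rel_eq_one.2 h1
    cases h3 : Db A w v
    · simp [st, h2, code, h3, h1, kap]
    · simp [st, h2, code, h3, h1, kap]
      ring
  · by_cases h2 : A w v
    · have h3 : rel A v w = 2 := by simp [rel, h1, h2]
      simp [st, h3, code, h1, h2, kap]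
    · have h3 : rel A v w = 0 := by simp [rel, h1, h2]
      cases h4 : Db A v w
      · simp [st, h3, code, h4, h1, kap]
      · cases h5 : Db A w v
        · simp [st, h3, code, h4, h5, h1, h2, kap]
        · simp [st, h3, code, h4, h5, h1, h2, kap]

open Classical in
/-- The main inequality for real sums. -/
theorem main_real (ha : ∀ u v, A u v → ¬ A v u) (he : ∀ v, dg A v = dg (fun a b => A b a) v) :
    (KC : ℝ) * ∑ v, ∑ w, (if A v w then (1 : ℝ) else 0) ≤
      (KK : ℝ) * ∑ v, ∑ w, (if Db A v w = true then (1 : ℝ) else 0) := by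
  have h1 := sum_Fp_nonneg ha
  unfold Fp at h1
  rw [sum_fun4 (fun v w x y => FF A v w x y)] at h1
  have h2 : ∑ v, ∑ w, ∑ x, ∑ y, FF A v w x y ≤ ∑ v, ∑ w, (kap (st A v w) : ℝ) :=
    sum_le_sum fun v _ => sum_le_sum fun w _ => sum_FF ha he v w
  have h3 : ∑ v, ∑ w, (kap (st A v w) : ℝ) =
      -(KC : ℝ) * ∑ v, ∑ w, (if A v w then (1 : ℝ) else 0) +
      (KK : ℝ) * (∑ v, ∑ w, (if A v w ∧ Db A w v = true then (1 : ℝ) else 0) +
        ∑ v, ∑ w, (if ¬ A v w ∧ ¬ A w v ∧ Db A v w = true then (1 : ℝ) else 0)) := by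
    rw [mul_add, mul_sum, mul_sum, mul_sum, ← sum_add_distrib, ← sum_add_distrib]
    refine sum_congr rfl fun v _ => ?_
    rw [mul_sum, mul_sum, mul_sum, ← sum_add_distrib, ← sum_add_distrib]
    refine sum_congr rfl fun w _ => ?_
    rw [kap_st ha v w]
    by_cases a1 : A v w <;> by_cases a2 : A w v <;> cases Db A v w <;> cases Db A w v <;>
      simp [a1, a2] <;> ring
  have h4 : ∑ v, ∑ w, (if Db A v w = true then (1 : ℝ) else 0) =
      ∑ v, ∑ w, (if A v w ∧ Db A w v = true then (1 : ℝ) else 0) +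
        ∑ v, ∑ w, (if ¬ A v w ∧ ¬ A w v ∧ Db A v w = true then (1 : ℝ) else 0) := by
    rw [sum_comm (f := fun v w => if A v w ∧ Db A w v = true then (1 : ℝ) else 0),
      ← sum_add_distrib]
    refine sum_congr rfl fun v _ => ?_
    rw [← sum_add_distrib]
    refine sum_congr rfl fun w _ => ?_
    by_cases a3 : Db A v w = true
    · have a4 : ¬ A v w := by
        simp only [Db, decide_eq_true_eq] at a3
        exact a3.1
      by_cases a5 : A w v <;> simp [a3, a4, a5]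
    · simp [a3]
  rw [h4]
  linarith

end

end Pool.Agent.Lib.H93Q
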