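import Pool.Agent.Lib.H93Q.Ident
import Pool.Agent.Lib.H93Q.C2
import Pool.Agent.Lib.H93Q.C3

/-! # MP_e5893c: the symmetrised form is nonnegative -/

set_option autoImplicit false

namespace Pool.Agent.Lib.H93Q

open Finset Pool.Agent.H2AF

theorem sum_perm {M : Type} [AddCommMonoid M] (h : ℕ × ℕ × ℕ × ℕ → M) :
    ∑ σ : Equiv.Perm (Fin 4), h ((σ 0 : ℕ), (σ 1 : ℕ), (σ 2 : ℕ), (σ 3 : ℕ)) = (L24.map h).sum := by
  have himg : (univ : Finset (Equiv.Perm (Fin 4))).image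
      (fun σ => ((σ 0 : ℕ), (σ 1 : ℕ), (σ 2 : ℕ), (σ 3 : ℕ))) = L24.toFinset := by
    decide +kernel
  have hnd : L24.Nodup := by decide +kernel
  rw [← List.sum_toFinset h hnd, ← himg, sum_image]
  intro σ _ τ _ hst
  simp only [Prod.mk.injEq, Fin.val_inj] at hst
  obtain ⟨h0, h1, h2, h3⟩ := hst
  ext i
  fin_cases i
  · exact congrArg _ h0
  · exact congrArg _ h1
  · exact congrArg _ h2
  · exact congrArg _ h3

theorem exists_perm {t : ℕ × ℕ × ℕ × ℕ} (ht : t ∈ L24) :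
    ∃ σ : Equiv.Perm (Fin 4), ((σ 0 : ℕ), (σ 1 : ℕ), (σ 2 : ℕ), (σ 3 : ℕ)) = t := by
  have himg : (univ : Finset (Equiv.Perm (Fin 4))).image
      (fun σ => ((σ 0 : ℕ), (σ 1 : ℕ), (σ 2 : ℕ), (σ 3 : ℕ))) = L24.toFinset := by
    decide +kernel
  have h1 : t ∈ L24.toFinset := List.mem_toFinset.2 ht
  rw [← himg, mem_image] at h1
  obtain ⟨σ, _, h2⟩ := h1
  exact ⟨σ, h2⟩

theorem symm_eq_pos (σ : Equiv.Perm (Fin 4)) (i : Fin 4) :
    ((σ.symm i : Fin 4) : ℕ) = pos (σ 0) (σ 1) (σ 2) i := by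
  obtain ⟨k, rfl⟩ := σ.surjective i
  have hinj : ∀ a b : Fin 4, ((σ a : Fin 4) : ℕ) = (σ b : ℕ) ↔ a = b := by
    intro a b
    rw [Fin.val_inj, σ.injective.eq_iff]
  rw [Equiv.symm_apply_apply]
  unfold pos
  simp only [hinj]
  fin_cases k <;> simp

section

variable {V : Type} [Fintype V] {A : V → V → Prop}

/-- the form at a quadruple -/
noncomputable def Fp (A : V → V → Prop) (p : Fin 4 → V) : ℝ := FF A (p 0) (p 1) (p 2) (p 3)

/-- coefficients at an ordered quadruple -/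
noncomputable def cf (A : V → V → Prop) (p : Fin 4 → V) (a b : ℕ) : Int :=
  fm (st A (p 0) (p 1)) (rel A (p 0) (p 2)) (rel A (p 1) (p 2)) (rel A (p 0) (p 3))
    (rel A (p 1) (p 3)) (rel A (p 2) (p 3)) a b

theorem Fp_eq (p : Fin 4 → V) :
    Fp A p = ∑ a : Fin 4, ∑ b : Fin 4, (cf A p a b : ℝ) * (uu A (p a) * uu A (p b)) := by
  simp only [Fp, FF, cf, fm, Fin.sum_univ_four, sum_range_succ, sum_range_zero, pt]
  simp
  ring

theorem Fp_perm (p : Fin 4 → V) (σ : Equiv.Perm (Fin 4)) :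
    2 * Fp A (p ∘ σ) = ∑ i : Fin 4, ∑ j : Fin 4,
      ((cf A (p ∘ σ) (σ.symm i) (σ.symm j) + cf A (p ∘ σ) (σ.symm j) (σ.symm i) : ℤ) : ℝ) *
        (uu A (p i) * uu A (p j)) := by
  have h1 : Fp A (p ∘ σ) = ∑ i : Fin 4, ∑ j : Fin 4,
      (cf A (p ∘ σ) (σ.symm i) (σ.symm j) : ℝ) * (uu A (p i) * uu A (p j)) := by
    rw [Fp_eq, ← Equiv.sum_comp σ.symm]
    refine sum_congr rfl fun i _ => ?_
    rw [← Equiv.sum_comp σ.symm]
    refine sum_congr rfl fun j _ => ?_
    simp only [Function.comp, Equiv.apply_symm_apply]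
  have h2 : Fp A (p ∘ σ) = ∑ i : Fin 4, ∑ j : Fin 4,
      (cf A (p ∘ σ) (σ.symm j) (σ.symm i) : ℝ) * (uu A (p i) * uu A (p j)) := by
    rw [h1, sum_comm]
    refine sum_congr rfl fun i _ => sum_congr rfl fun j _ => ?_
    ring
  calc 2 * Fp A (p ∘ σ) = Fp A (p ∘ σ) + Fp A (p ∘ σ) := by ring
    _ = _ := by
      nth_rw 1 [h1]
      rw [h2, ← sum_add_distrib]
      refine sum_congr rfl fun i _ => ?_
      rw [← sum_add_distrib]
      refine sum_congr rfl fun j _ => ?_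
      push_cast
      ring

/-- the point with a natural number as index -/
def PP (p : Fin 4 → V) (n : ℕ) : V := if n = 0 then p 0 else if n = 1 then p 1 else if n = 2 then p 2 else p 3

omit [Fintype V] in
theorem PP_val (p : Fin 4 → V) (k : Fin 4) : PP p k = p k := by
  fin_cases k <;> simp [PP]

theorem mn_le (R : List (List ℕ)) (i0 j0 k0 l0 i j : ℕ) (b b' : Bool)
    (h1 : al R i0 j0 b = true) (h2 : al R j0 i0 b' = true) :
    mn R i0 j0 k0 l0 i j ≤ pairSum R i0 j0 k0 l0 b b' i j := by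
  have h3 : cd R i0 j0 k0 l0 i j b b' = pairSum R i0 j0 k0 l0 b b' i j := by
    unfold cd
    rw [h1, h2]
    rfl
  rw [← h3]
  unfold mn
  cases b <;> cases b'
  · exact (min_le_left _ _).trans (min_le_left _ _)
  · exact (min_le_left _ _).trans (min_le_right _ _)
  · exact (min_le_right _ _).trans (min_le_left _ _)
  · exact (min_le_right _ _).trans (min_le_right _ _)

theorem rel_eq_one {v w : V} : rel A v w = 1 ↔ A v w := by
  unfold rel
  by_cases h : A v w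
  · simp [h]
  · by_cases h' : A w v <;> simp [h, h']

theorem al_ok (p : Fin 4 → V) (R : List (List ℕ))
    (hR : ∀ i < 4, ∀ j < 4, eN R i j = rel A (PP p i) (PP p j)) (i j : ℕ) (hi : i < 4) (hj : j < 4) :
    al R i j (Db A (PP p i) (PP p j)) = true := by
  unfold al
  by_cases h1 : eN R i j = 1
  · rw [if_pos h1]
    rw [hR i hi j hj, rel_eq_one] at h1
    simp [Db, h1]
  · rw [if_neg h1]
    split_ifs with h2
    · have h3 : ∃ k < 4, eN R i k = 1 ∧ eN R k j = 1 := by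
        rcases h2 with h | h | h | h
        · exact ⟨0, by norm_num, h⟩
        · exact ⟨1, by norm_num, h⟩
        · exact ⟨2, by norm_num, h⟩
        · exact ⟨3, by norm_num, h⟩
      obtain ⟨k, hk, h4, h5⟩ := h3
      rw [hR i hi k hk, rel_eq_one] at h4
      rw [hR k hk j hj, rel_eq_one] at h5
      rw [hR i hi j hj, rel_eq_one] at h1
      simp only [Db, decide_eq_true_eq]
      exact ⟨h1, _, h4, h5⟩
    · rfl

/-- the summand for one ordered quadruple of indices -/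
noncomputable def hh (A : V → V → Prop) (p : Fin 4 → V) (R : List (List ℕ)) (i j : ℕ)
    (t : ℕ × ℕ × ℕ × ℕ) : Int :=
  term R (code (eN R t.1 t.2.1) (Db A (PP p t.1) (PP p t.2.1)) (Db A (PP p t.2.1) (PP p t.1)))
    t.1 t.2.1 t.2.2.1 t.2.2.2 i j

theorem hh_eq (p : Fin 4 → V) (R : List (List ℕ))
    (hR : ∀ i < 4, ∀ j < 4, eN R i j = rel A (PP p i) (PP p j)) (σ : Equiv.Perm (Fin 4))
    (i j : Fin 4) :
    cf A (p ∘ σ) (σ.symm i) (σ.symm j) + cf A (p ∘ σ) (σ.symm j) (σ.symm i) =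
      hh A p R i j ((σ 0 : ℕ), (σ 1 : ℕ), (σ 2 : ℕ), (σ 3 : ℕ)) := by
  have h : ∀ a b : Fin 4, eN R (σ a) (σ b) = rel A (p (σ a)) (p (σ b)) := by
    intro a b
    rw [hR _ (σ a).isLt _ (σ b).isLt, PP_val, PP_val]
  unfold hh term cf st
  simp only [Function.comp, symm_eq_pos, h, PP_val]

theorem sum_hh (p : Fin 4 → V) (R : List (List ℕ))
    (hR : ∀ i < 4, ∀ j < 4, eN R i j = rel A (PP p i) (PP p j)) (i j : Fin 4) :
    tot R i j ≤ (L24.map (hh A p R i j)).sum := by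
  have a := fun i j hi hj => al_ok (A := A) p R hR i j hi hj
  have e1 := mn_le R 0 1 2 3 i j _ _ (a 0 1 (by norm_num) (by norm_num)) (a 1 0 (by norm_num) (by norm_num))
  have e2 := mn_le R 0 2 1 3 i j _ _ (a 0 2 (by norm_num) (by norm_num)) (a 2 0 (by norm_num) (by norm_num))
  have e3 := mn_le R 0 3 1 2 i j _ _ (a 0 3 (by norm_num) (by norm_num)) (a 3 0 (by norm_num) (by norm_num))
  have e4 := mn_le R 1 2 0 3 i j _ _ (a 1 2 (by norm_num) (by norm_num)) (a 2 1 (by norm_num) (by norm_num))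
  have e5 := mn_le R 1 3 0 2 i j _ _ (a 1 3 (by norm_num) (by norm_num)) (a 3 1 (by norm_num) (by norm_num))
  have e6 := mn_le R 2 3 0 1 i j _ _ (a 2 3 (by norm_num) (by norm_num)) (a 3 2 (by norm_num) (by norm_num))
  unfold tot
  unfold pairSum at e1 e2 e3 e4 e5 e6
  simp only [L24, List.map_cons, List.map_nil, List.sum_cons, List.sum_nil, hh]
  linarith

theorem sum_nonneg_of_chk (p : Fin 4 → V) (R : List (List ℕ)) (S L : List (List Int))
    (hR : ∀ i < 4, ∀ j < 4, eN R i j = rel A (PP p i) (PP p j)) (hc : chk R S L = true) :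
    0 ≤ ∑ σ : Equiv.Perm (Fin 4), Fp A (p ∘ σ) := by
  simp only [chk, Bool.and_eq_true] at hc
  obtain ⟨h1, h2⟩ := hc
  have h3 : ∀ i : Fin 4, ∀ j : Fin 4, ent S i j ≤ tot R i j := by
    intro i j
    have h4 := List.all_eq_true.mp h2 i (List.mem_range.mpr i.isLt)
    have h5 := List.all_eq_true.mp h4 j (List.mem_range.mpr j.isLt)
    exact of_decide_eq_true h5
  have h4 : 2 * ∑ σ : Equiv.Perm (Fin 4), Fp A (p ∘ σ) = ∑ i : Fin 4, ∑ j : Fin 4,
      ((L24.map (hh A p R i j)).sum : ℝ) * (uu A (p i) * uu A (p j)) := by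
    rw [mul_sum, sum_congr rfl fun σ _ => Fp_perm p σ, sum_comm]
    refine sum_congr rfl fun i _ => ?_
    rw [sum_comm]
    refine sum_congr rfl fun j _ => ?_
    rw [← sum_mul, ← sum_perm (hh A p R i j), Int.cast_sum]
    congr 1
    exact sum_congr rfl fun σ _ => by rw [hh_eq p R hR σ i j]
  have h5 : 0 ≤ ∑ i ∈ range 4, ∑ j ∈ range 4, (ent S i j : ℝ) * (uu A (PP p i) * uu A (PP p j)) := by
    refine psd_sum h1 (fun i j => uu A (PP p i) * uu A (PP p j)) (fun i j => mul_comm _ _) fun c => ?_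
    have h6 : ∑ i ∈ range 4, ∑ j ∈ range 4, c i * c j * (uu A (PP p i) * uu A (PP p j)) =
        (∑ i ∈ range 4, c i * uu A (PP p i)) ^ 2 := by
      rw [sq, sum_mul_sum]
      exact sum_congr rfl fun i _ => sum_congr rfl fun j _ => by ring
    rw [h6]
    exact sq_nonneg _
  rw [sum_range] at h5
  simp only [sum_range, PP_val] at h5
  have h6 : ∑ i : Fin 4, ∑ j : Fin 4, (ent S i j : ℝ) * (uu A (p i) * uu A (p j)) ≤
      ∑ i : Fin 4, ∑ j : Fin 4, ((L24.map (hh A p R i j)).sum : ℝ) * (uu A (p i) * uu A (p j)) := by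
    refine sum_le_sum fun i _ => sum_le_sum fun j _ => ?_
    refine mul_le_mul_of_nonneg_right ?_ (mul_nonneg (uu_nonneg A _) (uu_nonneg A _))
    exact_mod_cast (h3 i j).trans (sum_hh p R hR i j)
  linarith

end

end Pool.Agent.Lib.H93Q
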